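import Pool.Agent.H287R2.D4RegAt

/-!
# The field `E(t)(τ)`, the embeddings of `E(τ)` and `F(t)`
-/

set_option autoImplicit false

namespace Pool.Agent.H531R2.D4

open Polynomial

section E1

variable {E : Type} [Field E]

/-- `E[τ] → E(t)[τ]` injective -/
theorem op_map_C_inj : Function.Injective (mapRingHom (RatFunc.C : E →+* RatFunc E)) := by
  rw [coe_mapRingHom]
  exact map_injective _ RatFunc.C_injective

theorem op_e_inj : Function.Injective ((algebraMap (RatFunc E)[X] (RatFunc (RatFunc E))).comp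
    (mapRingHom (RatFunc.C : E →+* RatFunc E))) := by
  rw [RingHom.coe_comp]
  exact (RatFunc.algebraMap_injective _).comp op_map_C_inj

/-- `E(τ) → E(t)(τ)` -/
noncomputable def ee (E : Type) [Field E] : RatFunc E →+* RatFunc (RatFunc E) :=
  IsFractionRing.lift (A := E[X]) (op_e_inj (E := E))

theorem ee_alg (U : E[X]) : ee E (algebraMap E[X] (RatFunc E) U) =
    algebraMap (RatFunc E)[X] (RatFunc (RatFunc E)) (U.map RatFunc.C) :=
  IsFractionRing.lift_algebraMap (op_e_inj (E := E)) U

theorem ee_C (c : E) : ee E (RatFunc.C c) = RatFunc.C (RatFunc.C c) := by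
  rw [← RatFunc.algebraMap_C, ee_alg, map_C, RatFunc.algebraMap_C, RatFunc.algebraMap_C]

theorem ee_X : ee E RatFunc.X = RatFunc.X := by
  rw [← RatFunc.algebraMap_X, ee_alg, map_X, RatFunc.algebraMap_X]

theorem op_eval_map_C (U : E[X]) (α : E) :
    (U.map (RatFunc.C : E →+* RatFunc E)).eval (RatFunc.C α) = RatFunc.C (U.eval α) := by
  rw [eval_map, eval₂_at_apply]

theorem ee_regAt {α : E} {y : RatFunc E} {c : E} (h : RegAt α y c) :
    RegAt (RatFunc.C α) (ee E y) (RatFunc.C c) := by
  obtain ⟨U, V, hV, rfl, rfl⟩ := h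
  rw [map_div₀, ee_alg, ee_alg, map_div₀]
  have h1 := op_poly (RatFunc.C α) (U.map (RatFunc.C : E →+* RatFunc E))
  have h2 := op_poly (RatFunc.C α) (V.map (RatFunc.C : E →+* RatFunc E))
  rw [op_eval_map_C] at h1 h2
  exact op_div h1 h2 (by rw [Ne, map_eq_zero]; exact hV)

/-- the inner variable `t` as an element of `E(t)(τ)` -/
noncomputable def tt (E : Type) [Field E] : RatFunc (RatFunc E) := RatFunc.C RatFunc.X

/-- `E(τ)[t] → E(t)(τ)` -/
noncomputable def Th (E : Type) [Field E] : (RatFunc E)[X] →+* RatFunc (RatFunc E) :=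
  eval₂RingHom (ee E) (tt E)

theorem Th_C (c : RatFunc E) : Th E (C c) = ee E c := by
  rw [Th, coe_eval₂RingHom, eval₂_C]

theorem Th_X : Th E X = tt E := by
  rw [Th, coe_eval₂RingHom, eval₂_X]

/-- values of `Th` at `τ = α` -/
theorem Th_regAt {α : E} {p : (RatFunc E)[X]} {pt : E[X]} (h : RegP α p pt) :
    RegAt (RatFunc.C α) (Th E p) (algebraMap E[X] (RatFunc E) pt) := by
  have h1 : Th E p = ∑ i ∈ Finset.range (p.natDegree + 1), ee E (p.coeff i) * tt E ^ i := by
    rw [Th, coe_eval₂RingHom, eval₂_eq_sum_range]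
  have h2 : algebraMap E[X] (RatFunc E) pt =
      ∑ i ∈ Finset.range (p.natDegree + 1), RatFunc.C (pt.coeff i) * RatFunc.X ^ i := by
    have h3 : pt.natDegree < p.natDegree + 1 := by
      rw [Nat.lt_succ_iff, natDegree_le_iff_coeff_eq_zero]
      intro N hN
      exact h.coeff_eq_zero (coeff_eq_zero_of_natDegree_lt hN)
    conv_lhs => rw [pt.as_sum_range_C_mul_X_pow' h3]
    rw [map_sum]
    refine Finset.sum_congr rfl fun i _ => ?_
    rw [map_mul, map_pow, RatFunc.algebraMap_C, RatFunc.algebraMap_X]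
  rw [h1, h2]
  refine op_sum _ fun i _ => op_mul (ee_regAt (h i)) (op_pow ?_ i)
  exact op_const _ _

/-- Gauss: coefficients of a regular polynomial are regular (denominators `(X-α)^m V`) -/
theorem Th_gauss_aux {α : E} (V : E[X]) (hV : V.eval α ≠ 0) (g : (RatFunc E)[X])
    (hreg : ∃ c, RegAt (RatFunc.C α) (Th E g) c) (m : ℕ) : ∀ U : (E[X])[X],
    U.map (algebraMap E[X] (RatFunc E)) = C (algebraMap E[X] (RatFunc E) ((X - C α) ^ m * V)) * g →
    ∀ i, ∃ c, RegAt α (g.coeff i) c := by
  induction m with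
  | zero =>
    intro U hU i
    have h1 := congrArg (fun p => p.coeff i) hU
    simp only [coeff_map, coeff_C_mul, pow_zero, one_mul] at h1
    have h2 : g.coeff i = algebraMap E[X] (RatFunc E) (U.coeff i) /
        algebraMap E[X] (RatFunc E) V := by
      rw [eq_div_iff (ι_ne (op_ne_of_eval hV)), h1]
      ring
    exact ⟨_, U.coeff i, V, hV, h2, rfl⟩
  | succ m ih =>
    intro U hU
    obtain ⟨c, hc⟩ := hreg
    have h1 : RegP α (U.map (algebraMap E[X] (RatFunc E))) (U.map (evalRingHom α)) := by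
      intro i
      rw [coeff_map, coeff_map]
      exact op_poly α _
    have h2 := Th_regAt h1
    have h3 : RegAt (RatFunc.C α) (Th E (U.map (algebraMap E[X] (RatFunc E)))) (0 * c) := by
      rw [hU, map_mul, Th_C]
      refine op_mul ?_ hc
      have h4 := op_poly α ((X - C α) ^ (m + 1) * V)
      rw [eval_mul, eval_pow, eval_sub, eval_X, eval_C, sub_self, zero_pow (by omega),
        zero_mul] at h4
      have h5 := ee_regAt h4
      rwa [map_zero] at h5
    have h4 := op_unique h2 h3
    rw [zero_mul, map_eq_zero_iff _ (RatFunc.algebraMap_injective E)] at h4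
    have h5 : ∀ i, (X - C α) ∣ U.coeff i := by
      intro i
      rw [dvd_iff_isRoot, IsRoot]
      have := congrArg (fun p => p.coeff i) h4
      simpa only [coeff_map, coeff_zero, coe_evalRingHom] using this
    have h6 : C (X - C α) ∣ U := (C_dvd_iff_dvd_coeff _ _).2 h5
    obtain ⟨U', rfl⟩ := h6
    refine ih U' ?_
    have h7 : C (algebraMap E[X] (RatFunc E) (X - C α)) ≠ 0 := by
      rw [Ne, C_eq_zero]
      exact ι_ne (X_sub_C_ne_zero α)
    rw [Polynomial.map_mul, map_C, pow_succ', mul_assoc, map_mul (algebraMap E[X] (RatFunc E)),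
      C_mul, mul_assoc] at hU
    exact mul_left_cancel₀ h7 hU

theorem Th_gauss {α : E} (g : (RatFunc E)[X]) (hreg : ∃ c, RegAt (RatFunc.C α) (Th E g) c)
    (i : ℕ) : ∃ c, RegAt α (g.coeff i) c := by
  obtain ⟨b, hb1, hb⟩ := IsLocalization.integerNormalization_spec (nonZeroDivisors E[X]) g
  have hb0 : b ≠ 0 := nonZeroDivisors.ne_zero hb1
  obtain ⟨V, hV, hV'⟩ := exists_eq_pow_rootMultiplicity_mul_and_not_dvd b hb0 α
  rw [dvd_iff_isRoot] at hV'
  refine Th_gauss_aux V hV' g hreg (rootMultiplicity α b)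
    (IsLocalization.integerNormalization (nonZeroDivisors E[X]) g) ?_ i
  rw [← hV, hb]
  ext j
  rw [coeff_smul, coeff_C_mul, Algebra.smul_def]

theorem Th_injective : Function.Injective (Th E) := by
  rw [injective_iff_map_eq_zero]
  intro g hg
  by_contra hne
  obtain ⟨j, hj⟩ : ∃ j, g.coeff j ≠ 0 := by
    by_contra hcon
    push Not at hcon
    exact hne (Polynomial.ext (by simpa using hcon))
  set h : RatFunc E := (g.coeff j * algebraMap E[X] (RatFunc E) (X - C 0))⁻¹ with hh
  have h1 : ∃ c, RegAt (RatFunc.C 0) (Th E (C h * g)) c := by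
    rw [map_mul, hg, mul_zero]
    exact ⟨0, op_zero _⟩
  obtain ⟨c, hc⟩ := Th_gauss (α := 0) (C h * g) h1 j
  have h2 : algebraMap E[X] (RatFunc E) (X - C 0) ≠ 0 := ι_ne (X_sub_C_ne_zero 0)
  have h3 := op_mul (op_pi (0 : E)) hc
  have h4 : algebraMap E[X] (RatFunc E) (X - C 0) * (C h * g).coeff j = 1 := by
    rw [coeff_C_mul, hh]
    field_simp
  rw [h4, zero_mul] at h3
  exact one_ne_zero (op_unique (op_one (0 : E)) h3)

end E1

section Th1

variable {F E : Type} [Field F] [Field E] (ψ : F →+* RatFunc E)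

theorem op_th_inj : Function.Injective ((Th E).comp (mapRingHom ψ)) := by
  rw [RingHom.coe_comp]
  refine Th_injective.comp ?_
  rw [coe_mapRingHom]
  exact map_injective _ ψ.injective

/-- `F(t) → E(t)(τ)` -/
noncomputable def th : RatFunc F →+* RatFunc (RatFunc E) :=
  IsFractionRing.lift (A := F[X]) (op_th_inj ψ)

theorem th_alg (U : F[X]) : th ψ (algebraMap F[X] (RatFunc F) U) = Th E (U.map ψ) :=
  IsFractionRing.lift_algebraMap (op_th_inj ψ) U

theorem th_C (c : F) : th ψ (RatFunc.C c) = ee E (ψ c) := by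
  rw [← RatFunc.algebraMap_C, th_alg, map_C, Th_C]

theorem th_X : th ψ RatFunc.X = tt E := by
  rw [← RatFunc.algebraMap_X, th_alg, map_X, Th_X]

end Th1

section Der

variable {K F L : Type} [Field K] [Field F] [Field L] [Algebra K F] [Algebra K L]

/-- compatibility with derivations is checked on generators -/
theorem der_compat (d : Derivation K (RatFunc F) (RatFunc F)) (d' : Derivation K L L)
    (θ : RatFunc F →+* L) (hC : ∀ c : F, θ (d (RatFunc.C c)) = d' (θ (RatFunc.C c)))
    (hX : θ (d RatFunc.X) = d' (θ RatFunc.X)) (y : RatFunc F) : θ (d y) = d' (θ y) := by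
  have hmul : ∀ a b, θ (d a) = d' (θ a) → θ (d b) = d' (θ b) → θ (d (a * b)) = d' (θ (a * b)) := by
    intro a b ha hb
    rw [d.leibniz, map_mul, d'.leibniz, smul_eq_mul, smul_eq_mul, smul_eq_mul, smul_eq_mul,
      map_add, map_mul, map_mul, ha, hb]
  have hpoly : ∀ p : F[X], θ (d (algebraMap F[X] (RatFunc F) p)) =
      d' (θ (algebraMap F[X] (RatFunc F) p)) := by
    intro p
    induction p using Polynomial.induction_on' with
    | add p q hp hq => rw [map_add, map_add, map_add, map_add, map_add, hp, hq]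
    | monomial n c =>
      rw [← C_mul_X_pow_eq_monomial, map_mul, RatFunc.algebraMap_C, map_pow, RatFunc.algebraMap_X]
      refine hmul _ _ (hC c) ?_
      induction n with
      | zero => rw [pow_zero, Derivation.map_one_eq_zero, map_zero, map_one,
          Derivation.map_one_eq_zero]
      | succ n ih => rw [pow_succ]; exact hmul _ _ ih hX
  obtain ⟨U, V, hV, rfl⟩ := IsFractionRing.div_surjective (A := F[X]) y
  have hV0 : algebraMap F[X] (RatFunc F) V ≠ 0 := ι_ne (nonZeroDivisors.ne_zero hV)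
  have hV1 : θ (algebraMap F[X] (RatFunc F) V) ≠ 0 := by
    rw [Ne, map_eq_zero]; exact hV0
  set u := algebraMap F[X] (RatFunc F) U with hu
  set w := algebraMap F[X] (RatFunc F) V with hw
  have h1 : θ (d u) = d' (θ u) := hpoly U
  have h2 : θ (d w) = d' (θ w) := hpoly V
  have h3 : u = (u / w) * w := (div_mul_cancel₀ _ hV0).symm
  have h4 : θ (d u) = θ (u / w) * θ (d w) + θ w * θ (d (u / w)) := by
    conv_lhs => rw [h3]
    rw [d.leibniz, smul_eq_mul, smul_eq_mul, map_add, map_mul, map_mul]
  have h5 : d' (θ u) = θ (u / w) * d' (θ w) + θ w * d' (θ (u / w)) := by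
    conv_lhs => rw [h3]
    rw [map_mul, d'.leibniz, smul_eq_mul, smul_eq_mul]
  have h6 : θ w * θ (d (u / w)) = θ w * d' (θ (u / w)) := by
    rw [h1, h5, h2] at h4
    exact (add_left_cancel h4).symm
  exact mul_left_cancel₀ hV1 h6

end Der

section DerRat

variable {K F : Type} [Field K] [Field F] [Algebra K F] {I : Type} (D : I → Derivation K F F)

theorem DX_none_C (c : F) : DX D none (RatFunc.C c) = 0 := by
  rw [← RatFunc.algebraMap_C, DX_none, derivative_C, map_zero]

theorem DX_none_X : DX D none RatFunc.X = 1 := by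
  rw [← RatFunc.algebraMap_X, DX_none, derivative_X, map_one]

theorem DX_some_C (i : I) (c : F) : DX D (some i) (RatFunc.C c) = RatFunc.C (D i c) := by
  rw [← RatFunc.algebraMap_C, DX_some, mapD_C, RatFunc.algebraMap_C]

theorem DX_some_X (i : I) : DX D (some i) RatFunc.X = 0 := by
  rw [← RatFunc.algebraMap_X, DX_some, mapD_X, map_zero]

end DerRat

section DerE

variable {K E : Type} [Field K] [Field E] [Algebra K E] {I : Type} (DE : I → Derivation K E E)

theorem ee_none (y : RatFunc E) : ee E (DX DE none y) = DX (DX DE) none (ee E y) := by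
  refine der_compat _ _ (ee E) (fun c => ?_) ?_ y
  · rw [DX_none_C, map_zero, ee_C, DX_none_C]
  · rw [DX_none_X, map_one, ee_X, DX_none_X]

theorem ee_some (i : I) (y : RatFunc E) :
    ee E (DX DE (some i) y) = DX (DX DE) (some (some i)) (ee E y) := by
  refine der_compat _ _ (ee E) (fun c => ?_) ?_ y
  · rw [DX_some_C, ee_C, ee_C, DX_some_C, DX_some_C]
  · rw [DX_some_X, map_zero, ee_X, DX_some_X]

theorem ee_some_none (y : RatFunc E) : DX (DX DE) (some none) (ee E y) = 0 := by
  have h := der_compat (0 : Derivation K (RatFunc E) (RatFunc E)) (DX (DX DE) (some none)) (ee E)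
    (fun c => by
      rw [Derivation.zero_apply, map_zero, ee_C, DX_some_C, DX_none_C, map_zero])
    (by rw [Derivation.zero_apply, map_zero, ee_X, DX_some_X]) y
  rw [← h, Derivation.zero_apply, map_zero]

theorem tt_none : DX (DX DE) none (tt E) = 0 := DX_none_C _ _

theorem tt_some_none : DX (DX DE) (some none) (tt E) = 1 := by
  rw [tt, DX_some_C, DX_none_X, map_one]

theorem tt_some_some (i : I) : DX (DX DE) (some (some i)) (tt E) = 0 := by
  rw [tt, DX_some_C, DX_some_X, map_zero]

theorem ee_K (c : K) : ee E (algebraMap K (RatFunc E) c) =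
    algebraMap K (RatFunc (RatFunc E)) c := by
  have h1 : algebraMap K (RatFunc E) c = RatFunc.C (algebraMap K E c) := by
    rw [← RatFunc.algebraMap_C]
    rw [IsScalarTower.algebraMap_apply K E[X] (RatFunc E)]
    rfl
  have h2 : algebraMap K (RatFunc (RatFunc E)) c = RatFunc.C (algebraMap K (RatFunc E) c) := by
    rw [← RatFunc.algebraMap_C]
    rw [IsScalarTower.algebraMap_apply K (RatFunc E)[X] (RatFunc (RatFunc E))]
    rfl
  rw [h2, h1, ee_C]

end DerE

end Pool.Agent.H531R2.D4
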