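import Mathlib
import Pool.Agent.H476R2.Pal.Defs

/-! Task T6 of the palindrome project: the pointwise bound. -/

set_option autoImplicit false

namespace Pool.Agent.H287R2.PalT6

open Finset Pool.Agent.Helper112 Pool.Agent.H476R2.Pal

/-- the constant `κ = (2 - sqrt (2 + 2 cos (2 π / 121))) / 10` -/
noncomputable def kap : ℝ := (2 - Real.sqrt (2 + 2 * Real.cos (2 * Real.pi / 121))) / 10

lemma cos_lt : Real.cos (2 * Real.pi / 121) < 1 := by
  have h := Real.cos_lt_cos_of_nonneg_of_le_pi (x := 0) (y := 2 * Real.pi / 121) le_rfl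
    (by linarith [Real.pi_pos]) (by linarith [Real.pi_pos])
  simpa using h

lemma kap_pos : 0 < kap := by
  unfold kap
  have h1 := cos_lt
  have h2 : Real.sqrt (2 + 2 * Real.cos (2 * Real.pi / 121)) < 2 := by
    rw [show (2:ℝ) = Real.sqrt (2 ^ 2) by rw [Real.sqrt_sq (by norm_num)]]
    apply Real.sqrt_lt_sqrt
    · have := Real.neg_one_le_cos (Real.sqrt (2 ^ 2) * Real.pi / 121)
      rw [Real.sqrt_sq (by norm_num)]
      rw [Real.sqrt_sq (by norm_num)] at this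
      linarith
    · rw [Real.sqrt_sq (by norm_num)]
      linarith
  linarith

lemma kap_lt_one : kap < 1 := by
  unfold kap
  have := Real.sqrt_nonneg (2 + 2 * Real.cos (2 * Real.pi / 121))
  linarith

/-- `|1 + e(x)|` away from the integers -/
lemma norm_one_add (x : ℝ) (h1 : 1 / 121 ≤ |x|) (h2 : |x| ≤ 1 / 2) :
    ‖1 + ee x‖ ≤ Real.sqrt (2 + 2 * Real.cos (2 * Real.pi / 121)) := by
  apply Real.le_sqrt_of_sq_le
  have hee : ee x = Complex.cos ((2 * Real.pi * x : ℝ)) + Complex.sin ((2 * Real.pi * x : ℝ)) * Complex.I := by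
    unfold ee
    rw [← Complex.exp_mul_I]
    congr 1
    push_cast
    ring
  have hsq : ‖1 + ee x‖ ^ 2 = 2 + 2 * Real.cos (2 * Real.pi * x) := by
    rw [← Complex.normSq_eq_norm_sq, hee, Complex.normSq_apply]
    rw [← Complex.ofReal_cos, ← Complex.ofReal_sin]
    simp only [Complex.add_re, Complex.one_re, Complex.ofReal_re, Complex.mul_re, Complex.I_re,
      Complex.ofReal_im, Complex.I_im, Complex.add_im, Complex.one_im, Complex.mul_im]
    have := Real.sin_sq_add_cos_sq (2 * Real.pi * x)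
    nlinarith
  rw [hsq]
  have hcos : Real.cos (2 * Real.pi * x) ≤ Real.cos (2 * Real.pi / 121) := by
    rw [← Real.cos_abs (2 * Real.pi * x)]
    have habs : |2 * Real.pi * x| = 2 * Real.pi * |x| := by
      rw [abs_mul, abs_of_pos (by positivity)]
    rw [habs]
    have hpi := Real.pi_pos
    apply Real.cos_le_cos_of_nonneg_of_le_pi (by positivity)
    · nlinarith
    · nlinarith
  linarith

lemma ph_le (β : ℝ) (h : 1 / 121 ≤ |β - round β|) : ph β ≤ 1 - kap := by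
  have h1 : ph β = ph (β - round β) := by
    have := ph_add_int (β - round β) (round β)
    rw [sub_add_cancel] at this
    exact this
  rw [h1]
  have h2 : |β - round β| ≤ 1 / 2 := abs_sub_round β
  generalize β - round β = x at h h2
  have h3 := norm_one_add x h h2
  unfold ph kap
  have h4 : ∑ m ∈ range 10, ee ((m : ℝ) * x) = (1 + ee x) + ∑ m ∈ Ico (2:ℕ) 10, ee ((m : ℝ) * x) := by
    rw [← sum_range_add_sum_Ico _ (show 2 ≤ 10 by norm_num)]
    congr 1
    rw [sum_range_succ, sum_range_one]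
    simp [ls_ee_zero]
  have h5 : ‖∑ m ∈ Ico (2:ℕ) 10, ee ((m : ℝ) * x)‖ ≤ 8 := by
    calc ‖∑ m ∈ Ico (2:ℕ) 10, ee ((m : ℝ) * x)‖ ≤ ∑ m ∈ Ico (2:ℕ) 10, ‖ee ((m : ℝ) * x)‖ := norm_sum_le _ _
      _ = 8 := by simp [ls_norm_ee]
  rw [h4]
  have h6 := norm_add_le (1 + ee x) (∑ m ∈ Ico (2:ℕ) 10, ee ((m : ℝ) * x))
  linarith

/-- in every run of `2 t + 2` consecutive digits there is one with a large phase -/
lemma run (q t a L c₀ : ℕ) (hq1 : 1 < q) (hq : q.Coprime 10) (ha : a.Coprime q)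
    (ht : q < 10 ^ t) (hc : 1 ≤ c₀) (hL : c₀ + (2 * t + 2) ≤ L) :
    ∃ j < 2 * t + 2, 1 / 121 ≤ |(fr L (c₀ + j) : ℝ) * ((a : ℝ) / q) -
      round ((fr L (c₀ + j) : ℝ) * ((a : ℝ) / q))| := by
  by_contra hcon
  push Not at hcon
  have hq0 : (0 : ℝ) < q := by exact_mod_cast (by omega : 0 < q)
  -- the signed remainders
  let u : ℕ → ℤ := fun j => (fr L (c₀ + j) : ℤ) * a - q * round ((fr L (c₀ + j) : ℝ) * ((a : ℝ) / q))
  have hu : ∀ j < 2 * t + 2, 121 * |u j| < q := by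
    intro j hj
    have h1 := hcon j hj
    have h2 : ((u j : ℤ) : ℝ) = q * ((fr L (c₀ + j) : ℝ) * ((a : ℝ) / q) -
        round ((fr L (c₀ + j) : ℝ) * ((a : ℝ) / q))) := by
      simp only [u]
      push_cast
      field_simp
    have h3 : (121 : ℝ) * |((u j : ℤ) : ℝ)| < q := by
      rw [h2, abs_mul, abs_of_pos hq0]
      nlinarith
    exact_mod_cast h3
  have hdvd : ∀ j < 2 * t + 2, (q : ℤ) ∣ (fr L (c₀ + j) : ℤ) * a - u j := by
    intro j _
    refine ⟨round ((fr L (c₀ + j) : ℝ) * ((a : ℝ) / q)), ?_⟩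
    simp only [u]
    ring
  have hfr : ∀ j < 2 * t + 2, (fr L (c₀ + j) : ℤ) = 10 ^ (L + (c₀ + j)) + 10 ^ (L - (c₀ + j)) := by
    intro j _
    unfold fr
    rw [if_neg (by omega)]
    push_cast
    ring
  -- the recurrence
  have hrec : ∀ j, j + 2 < 2 * t + 2 → 10 * u (j + 2) - 101 * u (j + 1) + 10 * u j = 0 := by
    intro j hj
    have e0 : (10 : ℤ) * fr L (c₀ + (j + 2)) - 101 * fr L (c₀ + (j + 1)) + 10 * fr L (c₀ + j) = 0 := by
      rw [hfr (j + 2) (by omega), hfr (j + 1) (by omega), hfr j (by omega)]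
      obtain ⟨M, hM⟩ : ∃ M, L = M + (c₀ + (j + 2)) := ⟨L - (c₀ + (j + 2)), by omega⟩
      have e1 : L - (c₀ + (j + 2)) = M := by omega
      have e2 : L - (c₀ + (j + 1)) = M + 1 := by omega
      have e3 : L - (c₀ + j) = M + 2 := by omega
      rw [e1, e2, e3]
      rw [show L + (c₀ + (j + 2)) = (L + (c₀ + j)) + 2 by ring,
        show L + (c₀ + (j + 1)) = (L + (c₀ + j)) + 1 by ring]
      ring
    have e4 : (q : ℤ) ∣ 10 * u (j + 2) - 101 * u (j + 1) + 10 * u j := by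
      have h2 := hdvd (j + 2) (by omega)
      have h1 := hdvd (j + 1) (by omega)
      have h0 := hdvd j (by omega)
      have h3 := ((h2.mul_left 10).sub (h1.mul_left 101)).add (h0.mul_left 10)
      have h4 : 10 * ((fr L (c₀ + (j + 2)) : ℤ) * a - u (j + 2)) -
          101 * ((fr L (c₀ + (j + 1)) : ℤ) * a - u (j + 1)) +
          10 * ((fr L (c₀ + j) : ℤ) * a - u j) =
          (10 * (fr L (c₀ + (j + 2)) : ℤ) - 101 * fr L (c₀ + (j + 1)) + 10 * fr L (c₀ + j)) * a -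
          (10 * u (j + 2) - 101 * u (j + 1) + 10 * u j) := by ring
      rw [h4, e0, zero_mul, zero_sub] at h3
      exact (dvd_neg.1 h3)
    have e5 : |10 * u (j + 2) - 101 * u (j + 1) + 10 * u j| < q := by
      have h2 := hu (j + 2) (by omega)
      have h1 := hu (j + 1) (by omega)
      have h0 := hu j (by omega)
      rw [abs_lt]
      have a2 := abs_le.1 (le_refl |u (j + 2)|)
      have a1 := abs_le.1 (le_refl |u (j + 1)|)
      have a0 := abs_le.1 (le_refl |u j|)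
      constructor
      · linarith [a2.1, a2.2, a1.1, a1.2, a0.1, a0.2]
      · linarith [a2.1, a2.2, a1.1, a1.2, a0.1, a0.2]
    exact Int.eq_zero_of_abs_lt_dvd e4 e5
  -- divisibility by powers of ten
  have hpow : ∀ i, ∀ j, i ≤ j → j + i < 2 * t + 2 → (10 : ℤ) ^ i ∣ u j := by
    intro i
    induction i with
    | zero => intro j _ _; simp
    | succ i ih =>
      intro j h1 h2
      obtain ⟨k, rfl⟩ : ∃ k, j = k + 1 := ⟨j - 1, by omega⟩
      have h3 := hrec k (by omega)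
      have h4 := ih k (by omega) (by omega)
      have h5 := ih (k + 2) (by omega) (by omega)
      have h6 : (10 : ℤ) ^ (i + 1) ∣ 101 * u (k + 1) := by
        have h7 : 101 * u (k + 1) = 10 * u (k + 2) + 10 * u k := by linarith
        rw [h7, pow_succ, mul_comm ((10:ℤ) ^ i) 10]
        exact (mul_dvd_mul_left 10 h5).add (mul_dvd_mul_left 10 h4)
      have h8 : IsCoprime ((10 : ℤ) ^ (i + 1)) 101 := by
        apply IsCoprime.pow_left
        rw [Int.isCoprime_iff_gcd_eq_one]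
        decide
      exact h8.dvd_of_dvd_mul_left h6
  have hzero : ∀ j, t ≤ j → j + t < 2 * t + 2 → u j = 0 := by
    intro j h1 h2
    have h3 := hpow t j h1 h2
    have h4 := hu j (by omega)
    apply Int.eq_zero_of_abs_lt_dvd h3
    have h5 : (q : ℤ) < 10 ^ t := by exact_mod_cast ht
    have h6 := abs_nonneg (u j)
    linarith
  -- conclusion
  have hqc : ∀ j, t ≤ j → j + t < 2 * t + 2 → (q : ℤ) ∣ 10 ^ (2 * (c₀ + j)) + 1 := by
    intro j h1 h2
    have h3 := hdvd j (by omega)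
    rw [hzero j h1 h2, sub_zero, hfr j (by omega)] at h3
    have h4 : IsCoprime (q : ℤ) (a : ℤ) := by
      rw [Nat.isCoprime_iff_coprime]
      exact ha.symm
    have h5 := h4.dvd_of_dvd_mul_right h3
    have h6 : (10 : ℤ) ^ (L + (c₀ + j)) + 10 ^ (L - (c₀ + j)) =
        10 ^ (L - (c₀ + j)) * (10 ^ (2 * (c₀ + j)) + 1) := by
      rw [mul_add, ← pow_add, mul_one]
      congr 2
      omega
    rw [h6] at h5
    have h7 : IsCoprime (q : ℤ) ((10 : ℤ) ^ (L - (c₀ + j))) := by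
      apply IsCoprime.pow_right
      have : IsCoprime (q : ℤ) ((10 : ℕ) : ℤ) := Nat.isCoprime_iff_coprime.2 hq
      exact_mod_cast this
    exact h7.dvd_of_dvd_mul_left h5
  have k1 := hqc t le_rfl (by omega)
  have k2 := hqc (t + 1) (by omega) (by omega)
  have k3 : (q : ℤ) ∣ 99 := by
    have h1 := (k1.mul_left 100).sub k2
    have h2 : 100 * ((10 : ℤ) ^ (2 * (c₀ + t)) + 1) - (10 ^ (2 * (c₀ + (t + 1))) + 1) = 99 := by
      rw [show 2 * (c₀ + (t + 1)) = 2 * (c₀ + t) + 2 by ring, pow_add]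
      ring
    rwa [h2] at h1
  have k4 : (q : ℤ) ∣ 10 ^ (2 * (c₀ + t)) - 1 := by
    have h1 : (99 : ℤ) ∣ 10 ^ (2 * (c₀ + t)) - 1 := by
      rw [pow_mul]
      have := sub_dvd_pow_sub_pow ((10 : ℤ) ^ 2) 1 (c₀ + t)
      simpa using this
    exact k3.trans h1
  have k5 : (q : ℤ) ∣ 2 := by
    have h1 := k1.sub k4
    have h2 : ((10 : ℤ) ^ (2 * (c₀ + t)) + 1) - (10 ^ (2 * (c₀ + t)) - 1) = 2 := by ring
    rwa [h2] at h1
  have k6 : q ∣ 2 := by exact_mod_cast k5
  have k7 : q ∣ 1 := by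
    have h1 : q ∣ Nat.gcd q 10 := Nat.dvd_gcd dvd_rfl (k6.trans (by norm_num))
    rwa [hq] at h1
  have := Nat.le_of_dvd one_pos k7
  omega

lemma block (q t a L c₀ : ℕ) (hq1 : 1 < q) (hq : q.Coprime 10) (ha : a.Coprime q)
    (ht : q < 10 ^ t) (hc : 1 ≤ c₀) (hL : c₀ + (2 * t + 2) ≤ L) :
    Ps L c₀ (2 * t + 2) ((a : ℝ) / q) ≤ 1 - kap := by
  obtain ⟨j, hj, h⟩ := run q t a L c₀ hq1 hq ha ht hc hL
  have h1 := ph_le _ h
  unfold Ps
  rw [← mul_prod_erase (range (2 * t + 2)) _ (mem_range.2 hj)]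
  have h2 : ∏ x ∈ (range (2 * t + 2)).erase j, ph ((fr L (c₀ + x) : ℝ) * ((a : ℝ) / q)) ≤ 1 :=
    prod_le_one (fun _ _ => ph_nonneg _) (fun _ _ => ph_le_one _)
  have h3 : 0 ≤ ph ((fr L (c₀ + j) : ℝ) * ((a : ℝ) / q)) := ph_nonneg _
  calc ph ((fr L (c₀ + j) : ℝ) * ((a : ℝ) / q)) *
      ∏ x ∈ (range (2 * t + 2)).erase j, ph ((fr L (c₀ + x) : ℝ) * ((a : ℝ) / q))
      ≤ ph ((fr L (c₀ + j) : ℝ) * ((a : ℝ) / q)) * 1 := by gcongr
    _ ≤ 1 - kap := by linarith

lemma blocks (q t a L : ℕ) (hq1 : 1 < q) (hq : q.Coprime 10) (ha : a.Coprime q)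
    (ht : q < 10 ^ t) (n : ℕ) (hn : 1 + n * (2 * t + 2) ≤ L) :
    Ps L 1 (n * (2 * t + 2)) ((a : ℝ) / q) ≤ (1 - kap) ^ n := by
  induction n with
  | zero => simp [Ps_zero]
  | succ n ih =>
    have h0 : 1 + n * (2 * t + 2) + (2 * t + 2) ≤ L := by
      have : (n + 1) * (2 * t + 2) = n * (2 * t + 2) + (2 * t + 2) := by ring
      omega
    rw [show (n + 1) * (2 * t + 2) = n * (2 * t + 2) + (2 * t + 2) by ring, Ps_add, pow_succ]
    have h1 := ih (by omega)
    have h2 := block q t a L (1 + n * (2 * t + 2)) hq1 hq ha ht (by omega) h0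
    have h3 : 0 ≤ 1 - kap := by linarith [kap_lt_one]
    exact mul_le_mul h1 h2 (Ps_nonneg _ _ _ _) (by positivity)

/-- T6: pointwise bound -/
theorem point : ∃ κ : ℝ, 0 < κ ∧ κ < 1 ∧ ∀ q t a L : ℕ, 1 < q → q.Coprime 10 → a.Coprime q →
    q < 10 ^ t → Ps L 0 L ((a : ℝ) / q) ≤ (1 - κ) ^ ((L - 1) / (2 * t + 2)) := by
  refine ⟨kap, kap_pos, kap_lt_one, ?_⟩
  intro q t a L hq1 hq ha ht
  rcases Nat.eq_zero_or_pos L with hL | hL
  · subst hL
    simp [Ps_zero]
  have h1 : 1 + (L - 1) / (2 * t + 2) * (2 * t + 2) ≤ L := by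
    have := Nat.div_mul_le_self (L - 1) (2 * t + 2)
    omega
  exact (Ps_le_block L 1 _ L h1 _).trans (blocks q t a L hq1 hq ha ht _ h1)

end Pool.Agent.H287R2.PalT6
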